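import Pool.Agent.Y819.ZF.StmS
import Pool.Agent.Y592.ZF.GC

/-!
# Project ZF, fourth part: ZS2, a 1-factorization with a signed number prime to `p`
-/

set_option autoImplicit false
set_option linter.all false

namespace Pool.Agent.Y889.ZS

open Finset Pool.Agent.W426.LE Pool.Agent.TH378.LC
open Pool.Agent.Helper929 Pool.Agent.H604R2.LEC Pool.Agent.Y819.ZF

section abs

open Classical in
/-- the signed number of the colourings in terms of a 1-factorization -/
theorem NN_AT {d : ℕ} {W E : Type} [Fintype W] [Fintype E] (inc : W → Fin d → E)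
    (F : Fin d → W → W) (t : E → W) (c : E → Fin d)
    (h1 : ∀ x, inc (t x) (c x) = x) (h2 : ∀ v i, inc (F i v) i = inc v i)
    (h3 : ∀ v i, t (inc v i) = v ∨ t (inc v i) = F i v) (h4 : ∀ v i, c (inc v i) = i) :
    NN (Equiv.refl (Fin d)) inc = AT F := by
  symm
  unfold AT NN
  let X : (W → Equiv.Perm (Fin d)) → E → Fin d := fun σ e => σ (t e) (c e)
  have hX : ∀ σ, Cons F σ → ∀ v i, X σ (inc v i) = σ v i := by
    intro σ hσ v i
    show σ (t (inc v i)) (c (inc v i)) = σ v i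
    rw [h4]
    rcases h3 v i with h | h
    · rw [h]
    · rw [h]
      exact hσ v i
  refine Finset.sum_of_injOn X ?_ ?_ ?_ ?_
  · intro σ hσ σ' hσ' h
    have hσ := (Finset.mem_filter.1 (Finset.mem_coe.1 hσ)).2
    have hσ' := (Finset.mem_filter.1 (Finset.mem_coe.1 hσ')).2
    funext v
    ext i
    rw [← hX σ hσ, ← hX σ' hσ', h]
  · intro σ _
    simp
  · intro x _ hx
    by_contra hne0
    apply hx
    have hb : ∀ v, Function.Bijective (fun i => x (inc v i)) := by
      intro v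
      by_contra hb
      exact hne0 (Finset.prod_eq_zero (Finset.mem_univ v) (sg_of_not _ _ hb))
    let σ : W → Equiv.Perm (Fin d) := fun v => Equiv.ofBijective _ (hb v)
    have hσ : Cons F σ := by
      intro v i
      show x (inc (F i v) i) = x (inc v i)
      rw [h2]
    refine ⟨σ, by simpa using hσ, ?_⟩
    funext e
    show x (inc (t e) (c e)) = x e
    rw [h1]
  · intro σ hσ
    have hσ := (Finset.mem_filter.1 hσ).2
    refine Finset.prod_congr rfl fun v _ => ?_
    have h1 : (fun i => X σ (inc v i)) = (σ v : Fin d → Fin d) := by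
      funext i
      exact hX σ hσ v i
    rw [h1, sg_equiv]
    have hs' : ∀ (i1 i2 : DecidableEq (Fin d)) (τ τ' : Equiv.Perm (Fin d)), τ = τ' →
        ((@Equiv.Perm.sign _ i1 _ τ : ℤˣ) : ℤ) = ((@Equiv.Perm.sign _ i2 _ τ' : ℤˣ) : ℤ) :=
      fun i1 i2 τ τ' h => by rw [Subsingleton.elim i1 i2, h]
    exact hs' _ _ _ _ (Equiv.ext fun _ => rfl)

open Classical in
/-- renumbering the edges at the vertices -/
theorem NN_perm {d : ℕ} {W E : Type} [Fintype W] [Fintype E] (inc : W → Fin d → E)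
    (π : W → Equiv.Perm (Fin d)) :
    NN (Equiv.refl (Fin d)) (fun v i => inc v (π v i)) =
      (∏ v, ((Equiv.Perm.sign (π v) : ℤˣ) : ℤ)) * NN (Equiv.refl (Fin d)) inc := by
  unfold NN
  rw [Finset.mul_sum]
  refine Finset.sum_congr rfl fun x _ => ?_
  rw [← Finset.prod_mul_distrib]
  refine Finset.prod_congr rfl fun v _ => ?_
  have h1 := sg_comp_perm (Equiv.refl (Fin d)) (fun i => x (inc v i)) (π v)
  rw [h1]
  have hs' : ∀ (i1 i2 : DecidableEq (Fin d)) (τ : Equiv.Perm (Fin d)),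
      ((@Equiv.Perm.sign _ i1 _ τ : ℤˣ) : ℤ) = ((@Equiv.Perm.sign _ i2 _ τ : ℤˣ) : ℤ) :=
    fun i1 i2 τ => by rw [Subsingleton.elim i1 i2]
  rw [hs' _ _ (π v)]

end abs

section J

variable {n : ℕ} (m : Fin n → Fin n → ℕ) (hs : ∀ v w, m v w = m w v) (h0 : ∀ v, m v v = 0)

/-- the multiplicities of the pairs `a < b` -/
abbrev mE : Ed n → ℕ := fun x => m x.1.1 x.1.2

/-- the edges at `v` -/
def J (v : Fin n) (s : (w : Fin n) × Fin (m v w)) : ME (mE m) :=
  if h : v < s.1 then ⟨⟨(v, s.1), h⟩, s.2⟩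
  else if h' : s.1 < v then ⟨⟨(s.1, v), h'⟩, Fin.cast (hs v s.1) s.2⟩
  else (Fin.cast (by
    have : s.1 = v := le_antisymm (not_lt.1 h) (not_lt.1 h')
    rw [this, h0]) s.2 : Fin 0).elim0

include hs h0 in
theorem ne_of (v : Fin n) (s : (w : Fin n) × Fin (m v w)) : s.1 ≠ v := by
  intro h
  have h1 := s.2.2
  have h2 : m v s.1 = 0 := by rw [h, h0]
  omega

theorem J_pos {v : Fin n} {s : (w : Fin n) × Fin (m v w)} (h : v < s.1) :
    J m hs h0 v s = ⟨⟨(v, s.1), h⟩, s.2⟩ := by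
  unfold J
  rw [dif_pos h]

theorem J_neg {v : Fin n} {s : (w : Fin n) × Fin (m v w)} (h : s.1 < v) :
    J m hs h0 v s = ⟨⟨(s.1, v), h⟩, Fin.cast (hs v s.1) s.2⟩ := by
  unfold J
  rw [dif_neg (not_lt.2 h.le), dif_pos h]

theorem J_ends (v : Fin n) (s : (w : Fin n) × Fin (m v w)) :
    (mτ (mE m) (J m hs h0 v s) = v ∧ mη (mE m) (J m hs h0 v s) = s.1) ∨
      (mτ (mE m) (J m hs h0 v s) = s.1 ∧ mη (mE m) (J m hs h0 v s) = v) := by
  rcases lt_or_gt_of_ne (ne_of m hs h0 v s) with h | h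
  · right
    rw [J_neg m hs h0 h]
    exact ⟨rfl, rfl⟩
  · left
    rw [J_pos m hs h0 h]
    exact ⟨rfl, rfl⟩

theorem lt_ends (x : ME (mE m)) : mτ (mE m) x < mη (mE m) x := x.1.2

theorem J_inj (v : Fin n) : Function.Injective (J m hs h0 v) := by
  intro s s' h
  have hr := ne_of m hs h0 v s
  have hr' := ne_of m hs h0 v s'
  obtain ⟨w, k⟩ := s
  obtain ⟨w', k'⟩ := s'
  rcases lt_or_gt_of_ne hr with h1 | h1 <;> rcases lt_or_gt_of_ne hr' with h2 | h2
  · rw [J_neg m hs h0 h1, J_neg m hs h0 h2] at h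
    obtain ⟨h3, h4⟩ := Sigma.mk.inj_iff.1 h
    have h5 : w = w' := congrArg (fun z : Ed n => z.1.1) h3
    subst h5
    have h6 := eq_of_heq h4
    have h7 : k = k' := by
      apply Fin.ext
      have h8 := congrArg Fin.val h6
      exact h8
    rw [h7]
  · rw [J_neg m hs h0 h1, J_pos m hs h0 h2] at h
    obtain ⟨h3, h4⟩ := Sigma.mk.inj_iff.1 h
    have h5 : w = v := congrArg (fun z : Ed n => z.1.1) h3
    exact absurd h5 hr
  · rw [J_pos m hs h0 h1, J_neg m hs h0 h2] at h
    obtain ⟨h3, h4⟩ := Sigma.mk.inj_iff.1 h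
    have h5 : w = v := congrArg (fun z : Ed n => z.1.2) h3
    exact absurd h5 hr
  · rw [J_pos m hs h0 h1, J_pos m hs h0 h2] at h
    obtain ⟨h3, h4⟩ := Sigma.mk.inj_iff.1 h
    have h5 : w = w' := congrArg (fun z : Ed n => z.1.2) h3
    subst h5
    have h6 : k = k' := eq_of_heq h4
    rw [h6]

theorem J_surj (v : Fin n) (x : ME (mE m)) (h : v = mτ (mE m) x ∨ v = mη (mE m) x) :
    ∃ s, J m hs h0 v s = x := by
  obtain ⟨⟨⟨a, b⟩, hab⟩, k⟩ := x
  rcases h with h | h
  · have h' : v = a := h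
    subst h'
    exact ⟨⟨b, k⟩, J_pos m hs h0 hab⟩
  · have h' : v = b := h
    subst h'
    refine ⟨⟨a, Fin.cast (hs a v) k⟩, ?_⟩
    rw [J_neg m hs h0 (show a < v from hab)]
    rfl

theorem J_other {v w : Fin n} {s : (w : Fin n) × Fin (m v w)} {s' : (u : Fin n) × Fin (m w u)}
    (hw : s.1 = w) (h : J m hs h0 w s' = J m hs h0 v s) : s'.1 = v := by
  have h1 := J_ends m hs h0 v s
  have h2 := J_ends m hs h0 w s'
  have h3 := lt_ends m (J m hs h0 v s)
  rw [h] at h2
  rcases h1 with ⟨a, b⟩ | ⟨a, b⟩ <;> rcases h2 with ⟨a', b'⟩ | ⟨a', b'⟩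
  · rw [a', b, hw] at h3
    exact absurd h3 (lt_irrefl _)
  · exact a'.symm.trans a
  · exact b'.symm.trans b
  · rw [a, hw, b'] at h3
    exact absurd h3 (lt_irrefl _)

end J

open Classical in
theorem main (h : S_CNT) : S_FACF := by
  intro p hp V μ hreg hok
  have hfin := hreg.fin
  have iV : Fintype V := Fintype.ofFinite V
  set n := Fintype.card V with hn
  let e : V ≃ Fin n := Fintype.equivFin V
  let m : Fin n → Fin n → ℕ := fun a b => μ (e.symm a) (e.symm b)
  have hs : ∀ v w, m v w = m w v := fun v w => hreg.symm _ _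
  have h0 : ∀ v, m v v = 0 := fun v => hreg.diag _
  have hN : ∀ v, Nonempty (Fin (p - 2) ≃ (w : Fin n) × Fin (m v w)) := by
    intro v
    refine ⟨Fintype.equivOfCardEq ?_⟩
    rw [Fintype.card_fin, Fintype.card_sigma]
    simp only [Fintype.card_fin]
    have h1 := hreg.reg (e.symm v)
    rw [finsum_eq_sum_of_fintype] at h1
    rw [← h1]
    exact Fintype.sum_equiv e _ _ fun w => by simp [m]
  let N : ∀ v, Fin (p - 2) ≃ (w : Fin n) × Fin (m v w) := fun v => (hN v).some
  let inc : Fin n → Fin (p - 2) → ME (mE m) := fun v i => J m hs h0 v (N v i)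
  have hinj : ∀ v, Function.Injective (inc v) := fun v i j hij =>
    (N v).injective (J_inj m hs h0 v hij)
  have hiff : ∀ v x, (∃ i, inc v i = x) ↔ (v = mτ (mE m) x ∨ v = mη (mE m) x) := by
    intro v x
    constructor
    · rintro ⟨i, rfl⟩
      rcases J_ends m hs h0 v (N v i) with ⟨a, b⟩ | ⟨a, b⟩
      · exact Or.inl a.symm
      · exact Or.inr b.symm
    · intro hx
      obtain ⟨s, hs'⟩ := J_surj m hs h0 v x hx
      exact ⟨(N v).symm s, by simp only [inc, Equiv.apply_symm_apply]; exact hs'⟩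
  obtain ⟨ε, hε, hNN⟩ := h n (p - 2) (ME (mE m)) (mτ (mE m)) (mη (mE m)) inc
    (fun x => (lt_ends m x).ne) hinj hiff
  have hcc : cc (ZMod p) (p - 2) (mτ (mE m)) (mη (mE m)) ≠ 0 := hok n e
  have hndvd : ¬ ((p : ℤ) ∣ NN (Equiv.refl (Fin (p - 2))) inc) := by
    intro hdvd
    rw [hNN, ← ZMod.intCast_zmod_eq_zero_iff_dvd, Int.cast_mul,
      Pool.Agent.Y592.ZF.cc_cast] at hdvd
    rcases hε with rfl | rfl
    · exact hcc (by simpa using hdvd)
    · exact hcc (by simpa using hdvd)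
  have hNN0 : NN (Equiv.refl (Fin (p - 2))) inc ≠ 0 := fun h' => hndvd (h' ▸ dvd_zero _)
  obtain ⟨x0, -, hx0⟩ := Finset.exists_ne_zero_of_sum_ne_zero hNN0
  have hb : ∀ v, Function.Bijective (fun i => x0 (inc v i)) := by
    intro v
    by_contra hb
    exact hx0 (Finset.prod_eq_zero (Finset.mem_univ v) (sg_of_not _ _ hb))
  let π : Fin n → Equiv.Perm (Fin (p - 2)) := fun v => (Equiv.ofBijective _ (hb v)).symm
  have hπ : ∀ v i, x0 (inc v (π v i)) = i := fun v i =>
    (Equiv.ofBijective _ (hb v)).apply_symm_apply i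
  let inc' : Fin n → Fin (p - 2) → ME (mE m) := fun v i => inc v (π v i)
  let F' : Fin (p - 2) → Fin n → Fin n := fun i v => (N v (π v i)).1
  have huni : ∀ v i x, (v = mτ (mE m) x ∨ v = mη (mE m) x) → x0 x = i → inc' v i = x := by
    intro v i x hx hi
    obtain ⟨j, hj⟩ := (hiff v x).2 hx
    have : π v i = j := by
      apply (hb v).1
      show x0 (inc v (π v i)) = x0 (inc v j)
      rw [hπ, hj, hi]
    show inc v (π v i) = x
    rw [this, hj]
  have hF2 : ∀ v i, inc' (F' i v) i = inc' v i := by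
    intro v i
    apply huni _ _ _ _ (hπ v i)
    rcases J_ends m hs h0 v (N v (π v i)) with ⟨a, b⟩ | ⟨a, b⟩
    · exact Or.inr b.symm
    · exact Or.inl a.symm
  have hinv : ∀ i v, F' i (F' i v) = v := by
    intro i v
    exact J_other m hs h0 rfl (hF2 v i)
  have hNA : NN (Equiv.refl (Fin (p - 2))) inc' = AT F' := by
    refine NN_AT inc' F' (mτ (mE m)) x0 ?_ hF2 ?_ hπ
    · intro x
      exact huni _ _ _ (Or.inl rfl) rfl
    · intro v i
      rcases J_ends m hs h0 v (N v (π v i)) with ⟨a, b⟩ | ⟨a, b⟩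
      · exact Or.inl a
      · exact Or.inr a
  have hAT' : ¬ ((p : ℤ) ∣ AT F') := by
    rw [← hNA, NN_perm inc π]
    intro hd
    apply hndvd
    have hu : IsUnit (∏ v, ((Equiv.Perm.sign (π v) : ℤˣ) : ℤ)) := by
      rw [← Units.coe_prod]
      exact Units.isUnit _
    exact (hu.dvd_mul_left).1 hd
  refine ⟨fun i v => e.symm (F' i (e v)), ⟨?_, ?_, ?_⟩, ?_⟩
  · intro i v
    simp only [Equiv.apply_symm_apply, hinv, Equiv.symm_apply_apply]
  · intro i v hv
    have h1 : F' i (e v) = e v := (Equiv.symm_apply_eq e).1 hv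
    exact ne_of m hs h0 _ _ h1
  · intro v w
    have e1 : {i // e.symm (F' i (e v)) = w} ≃
        {s : (u : Fin n) × Fin (m (e v) u) // s.1 = e w} :=
      ((π (e v)).trans (N (e v))).subtypeEquiv fun i => by
        rw [Equiv.symm_apply_eq]
        rfl
    rw [Nat.card_congr e1, Nat.card_congr (Equiv.sigmaSubtype (e w)), Nat.card_eq_fintype_card,
      Fintype.card_fin]
    simp only [m, Equiv.symm_apply_apply]
  · intro iV'
    have : iV' = iV := Subsingleton.elim _ _
    subst this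
    rw [show (fun i v => e.symm (F' i (e v))) = fun i v => e.symm (F' i (e.symm.symm v)) from rfl,
      AT_iso e.symm F']
    exact hAT'

end Pool.Agent.Y889.ZS
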